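import Mathlib

set_option autoImplicit false

/-!
# Longest progressions in sumsets of sparse sets (MP_56a425_co)

Numbers all of whose digits in base `b` lie in a set `D` of small digits such that `D + D`
contains no progression of length `L` modulo `b` have sums without progressions of length `L`.
-/

namespace Pool.Agent.Results.MP_56a425_co.ShortProgressions

open Filter
open scoped Pointwise

/-- `S` contains an arithmetic progression of length `k` with positive difference. -/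
def HasAP (S : Finset ℤ) (k : ℕ) : Prop :=
  ∃ a d : ℤ, 1 ≤ d ∧ ∀ i : ℕ, i < k → a + i * d ∈ S

/-- The length `lp(S)` of the longest arithmetic progression in the finite set `S`. -/
noncomputable def lp (S : Finset ℤ) : ℕ := sSup {k : ℕ | HasAP S k}

/-- The minimum of `lp(A + A)` over the sets `A ⊆ {1, …, N}` with `⌊N ^ (1 - θ)⌋` elements. -/
noncomputable def minlp (θ : ℝ) (N : ℕ) : ℕ :=
  sInf {m : ℕ | ∃ A : Finset ℤ, (∀ x ∈ A, 1 ≤ x ∧ x ≤ (N : ℤ)) ∧
    A.card = ⌊(N : ℝ) ^ (1 - θ)⌋₊ ∧ m = lp (A + A)}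

/-- `l(θ)`, the limit superior of these minima. -/
noncomputable def l (θ : ℝ) : ℕ∞ := limsup (fun N : ℕ => (minlp θ N : ℕ∞)) atTop

/-- The sums of two digits contain no progression of length `L` modulo `b`. -/
def NoAP (b : ℕ) (D : Finset ℕ) (L : ℕ) : Prop :=
  ∀ s δ : ℤ, ¬ (b : ℤ) ∣ δ → ∃ i : ℕ, i < L ∧
    ∀ x ∈ D, ∀ y ∈ D, ¬ (b : ℤ) ∣ (s + i * δ - ((x : ℤ) + (y : ℤ)))

/-- The numbers with `n` digits, all in `D`. -/
def T (b : ℕ) (D : Finset ℕ) : ℕ → Finset ℕ
  | 0 => {0}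
  | n + 1 => (D ×ˢ T b D n).image (fun q => q.1 + b * q.2)

theorem T_lt {b : ℕ} (hb : 2 ≤ b) {D : Finset ℕ} (hD : ∀ d ∈ D, 2 * d + 1 ≤ b) (n : ℕ) :
    ∀ x ∈ T b D n, x < b ^ n := by
  induction n with
  | zero => intro x hx; simp [T] at hx; simp [hx]
  | succ n ih =>
    intro x hx
    simp only [T, Finset.mem_image, Finset.mem_product, Prod.exists] at hx
    obtain ⟨d, t, ⟨hd, ht⟩, rfl⟩ := hx
    have h1 := hD d hd
    have h2 := ih t ht
    have h3 : b * (t + 1) ≤ b * b ^ n := Nat.mul_le_mul_left b h2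
    rw [pow_succ, mul_comm (b ^ n) b]
    nlinarith

theorem T_card {b : ℕ} (hb : 2 ≤ b) {D : Finset ℕ} (hD : ∀ d ∈ D, 2 * d + 1 ≤ b) (n : ℕ) :
    (T b D n).card = D.card ^ n := by
  induction n with
  | zero => simp [T]
  | succ n ih =>
    rw [T, Finset.card_image_of_injOn, Finset.card_product, ih, pow_succ, mul_comm]
    intro q hq r hr h
    simp only [Finset.coe_product, Set.mem_prod, Finset.mem_coe] at hq hr
    have h1 : q.1 < b := by have := hD q.1 hq.1; omega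
    have h2 : r.1 < b := by have := hD r.1 hr.1; omega
    simp only at h
    have h3 : (q.1 + b * q.2) % b = (r.1 + b * r.2) % b := by rw [h]
    rw [Nat.add_mul_mod_self_left, Nat.add_mul_mod_self_left, Nat.mod_eq_of_lt h1,
      Nat.mod_eq_of_lt h2] at h3
    have h4 : b * q.2 = b * r.2 := by omega
    exact Prod.ext h3 (Nat.eq_of_mul_eq_mul_left (by omega) h4)

theorem T_noAP {b : ℕ} (hb : 2 ≤ b) {D : Finset ℕ} (hD : ∀ d ∈ D, 2 * d + 1 ≤ b) {L : ℕ}
    (hL : 2 ≤ L) (hN : NoAP b D L) (n : ℕ) :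
    ∀ a δ : ℤ, δ ≠ 0 → ∃ i : ℕ, i < L ∧
      ∀ x ∈ T b D n, ∀ y ∈ T b D n, a + i * δ ≠ (x : ℤ) + (y : ℤ) := by
  induction n with
  | zero =>
    intro a δ hδ
    by_contra hc
    push Not at hc
    obtain ⟨x, hx, y, hy, h0⟩ := hc 0 (by omega)
    obtain ⟨x', hx', y', hy', h1⟩ := hc 1 (by omega)
    simp only [T, Finset.mem_singleton] at hx hy hx' hy'
    subst hx hy hx' hy'
    apply hδ
    push_cast at h0 h1
    linarith
  | succ n ih =>
    intro a δ hδ
    by_contra hc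
    push Not at hc
    -- decompose
    have hc' : ∀ i : ℕ, i < L → ∃ d ∈ D, ∃ d' ∈ D, ∃ t ∈ T b D n, ∃ t' ∈ T b D n,
        a + i * δ = ((d : ℤ) + d') + b * ((t : ℤ) + t') := by
      intro i hi
      obtain ⟨x, hx, y, hy, h⟩ := hc i hi
      simp only [T, Finset.mem_image, Finset.mem_product, Prod.exists] at hx hy
      obtain ⟨d, t, ⟨hd, ht⟩, rfl⟩ := hx
      obtain ⟨d', t', ⟨hd', ht'⟩, rfl⟩ := hy
      refine ⟨d, hd, d', hd', t, ht, t', ht', ?_⟩
      rw [h]
      push_cast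
      ring
    by_cases hbd : (b : ℤ) ∣ δ
    · obtain ⟨δ', rfl⟩ := hbd
      have hδ' : δ' ≠ 0 := by
        rintro rfl
        exact hδ (by ring)
      obtain ⟨d, hd, d', hd', t, ht, t', ht', h0⟩ := hc' 0 (by omega)
      obtain ⟨i, hi, hne⟩ := ih ((t : ℤ) + t') δ' hδ'
      obtain ⟨e, he, e', he', u, hu, u', hu', h1⟩ := hc' i hi
      apply hne u hu u' hu'
      have hb0 : (0 : ℤ) < b := by exact_mod_cast (by omega : 0 < b)
      have k1 := hD d hd
      have k2 := hD d' hd'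
      have k3 := hD e he
      have k4 := hD e' he'
      have h2 : ((e : ℤ) + e') + b * ((u : ℤ) + u') =
          ((d : ℤ) + d') + b * (((t : ℤ) + t') + i * δ') := by
        rw [← h1]
        have : a = ((d : ℤ) + d') + b * ((t : ℤ) + t') := by
          rw [← h0]; push_cast; ring
        rw [this]
        ring
      have m1 : (((e : ℤ) + e') + b * ((u : ℤ) + u')) % b = (e : ℤ) + e' := by
        rw [Int.add_mul_emod_self_left]
        exact Int.emod_eq_of_lt (by positivity) (by exact_mod_cast (by omega : e + e' < b))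
      have m2 : (((d : ℤ) + d') + b * (((t : ℤ) + t') + i * δ')) % b = (d : ℤ) + d' := by
        rw [Int.add_mul_emod_self_left]
        exact Int.emod_eq_of_lt (by positivity) (by exact_mod_cast (by omega : d + d' < b))
      have h3 : (e : ℤ) + e' = (d : ℤ) + d' := by rw [← m1, h2, m2]
      have h4 : (b : ℤ) * ((u : ℤ) + u') = b * (((t : ℤ) + t') + i * δ') := by linarith
      exact (mul_left_cancel₀ hb0.ne' h4).symm
    · obtain ⟨i, hi, hne⟩ := hN a δ hbd
      obtain ⟨e, he, e', he', u, hu, u', hu', h1⟩ := hc' i hi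
      apply hne e he e' he'
      rw [h1]
      exact ⟨(u : ℤ) + u', by ring⟩

/-- progressions in a finite set are short -/
theorem HasAP.le_card {S : Finset ℤ} {k : ℕ} (h : HasAP S k) : k ≤ S.card := by
  obtain ⟨a, d, hd, h⟩ := h
  calc k = ((Finset.range k).image (fun i : ℕ => a + i * d)).card := by
        rw [Finset.card_image_of_injective, Finset.card_range]
        intro i j hij
        simp only [add_right_inj] at hij
        have := mul_right_cancel₀ (by omega : d ≠ 0) hij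
        exact_mod_cast this
    _ ≤ S.card := by
        apply Finset.card_le_card
        intro x hx
        simp only [Finset.mem_image, Finset.mem_range] at hx
        obtain ⟨i, hi, rfl⟩ := hx
        exact h i hi

theorem three_le_lp {A : Finset ℤ} (hA : 2 ≤ A.card) : 3 ≤ lp (A + A) := by
  obtain ⟨x, hx, y, hy, hxy⟩ := Finset.one_lt_card.1 hA
  have key : ∀ x ∈ A, ∀ y ∈ A, x < y → HasAP (A + A) 3 := by
    intro x hx y hy hlt
    refine ⟨x + x, y - x, by omega, ?_⟩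
    intro i hi
    have : i = 0 ∨ i = 1 ∨ i = 2 := by omega
    rcases this with rfl | rfl | rfl
    · have : x + x + ((0 : ℕ) : ℤ) * (y - x) = x + x := by push_cast; ring
      rw [this]; exact Finset.add_mem_add hx hx
    · have : x + x + ((1 : ℕ) : ℤ) * (y - x) = x + y := by push_cast; ring
      rw [this]; exact Finset.add_mem_add hx hy
    · have : x + x + ((2 : ℕ) : ℤ) * (y - x) = y + y := by push_cast; ring
      rw [this]; exact Finset.add_mem_add hy hy
  have h3 : HasAP (A + A) 3 := by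
    rcases lt_or_gt_of_ne hxy with h | h
    · exact key x hx y hy h
    · exact key y hy x hx h
  exact le_csSup ⟨(A + A).card, fun k hk => HasAP.le_card hk⟩ h3

theorem lp_le {S : Finset ℤ} {L : ℕ} (hL : 1 ≤ L)
    (h : ∀ a δ : ℤ, δ ≠ 0 → ∃ i : ℕ, i < L ∧ a + i * δ ∉ S) : lp S ≤ L - 1 := by
  apply csSup_le'
  intro k hk
  obtain ⟨a, d, hd, hk⟩ := hk
  by_contra hc
  obtain ⟨i, hi, hne⟩ := h a d (by omega)
  exact hne (hk i (by omega))

/-- The set used in the upper bound. -/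
theorem exists_set {b : ℕ} (hb : 2 ≤ b) {D : Finset ℕ} (hD : ∀ d ∈ D, 2 * d + 1 ≤ b) {L : ℕ}
    (hL : 2 ≤ L) (hN : NoAP b D L) (n m N : ℕ) (hm : m ≤ D.card ^ n) (hbN : b ^ n ≤ N) :
    ∃ A : Finset ℤ, (∀ x ∈ A, 1 ≤ x ∧ x ≤ (N : ℤ)) ∧ A.card = m ∧ lp (A + A) ≤ L - 1 := by
  rw [← T_card hb hD n] at hm
  obtain ⟨B, hB, hBc⟩ := Finset.exists_subset_card_eq hm
  refine ⟨B.image (fun x : ℕ => (x : ℤ) + 1), ?_, ?_, ?_⟩
  · intro x hx
    simp only [Finset.mem_image] at hx
    obtain ⟨y, hy, rfl⟩ := hx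
    have := T_lt hb hD n y (hB hy)
    constructor
    · have : (0 : ℤ) ≤ y := by positivity
      linarith
    · exact_mod_cast (by omega : y + 1 ≤ N)
  · rw [Finset.card_image_of_injective, hBc]
    intro x y hxy
    simpa using hxy
  · apply lp_le (by omega)
    intro a δ hδ
    obtain ⟨i, hi, hne⟩ := T_noAP hb hD hL hN n (a - 2) δ hδ
    refine ⟨i, hi, ?_⟩
    intro hmem
    rw [Finset.mem_add] at hmem
    obtain ⟨x, hx, y, hy, hxy⟩ := hmem
    simp only [Finset.mem_image] at hx hy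
    obtain ⟨x', hx', rfl⟩ := hx
    obtain ⟨y', hy', rfl⟩ := hy
    apply hne x' (hB hx') y' (hB hy')
    linarith

/-- the size condition, for large `N` -/
theorem size_ok {b : ℕ} (hb : 2 ≤ b) {c : ℕ} (hc : 1 ≤ c) {θ : ℝ} (h0 : θ < 1)
    (hθ : 1 - Real.log c / Real.log b < θ) :
    ∀ᶠ N : ℕ in atTop, 1 ≤ N ∧ ⌊(N : ℝ) ^ (1 - θ)⌋₊ ≤ c ^ (Nat.log b N) := by
  have hlb : 0 < Real.log b := Real.log_pos (by exact_mod_cast (by omega : 1 < b))
  have hlc : 0 ≤ Real.log c := Real.log_nonneg (by exact_mod_cast hc)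
  set e : ℝ := Real.log c - (1 - θ) * Real.log b with he
  have he0 : 0 < e := by
    rw [he]
    have : (1 - θ) < Real.log c / Real.log b := by linarith
    rw [lt_div_iff₀ hlb] at this
    linarith
  have ht : Tendsto (fun N : ℕ => Real.log (N : ℝ)) atTop atTop :=
    Real.tendsto_log_atTop.comp tendsto_natCast_atTop_atTop
  filter_upwards [ht.eventually_ge_atTop (Real.log b * (Real.log c / e)),
    eventually_ge_atTop 1] with N hN h1
  refine ⟨h1, ?_⟩
  have hNpos : (0 : ℝ) < N := by exact_mod_cast h1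
  set n := Nat.log b N with hn
  have hlt : N < b ^ (n + 1) := Nat.lt_pow_succ_log_self (by omega) N
  have hlog : Real.log N ≤ (n + 1) * Real.log b := by
    have h2 : (N : ℝ) ≤ (b : ℝ) ^ (n + 1) := by exact_mod_cast hlt.le
    have h3 := Real.log_le_log hNpos h2
    rw [Real.log_pow] at h3
    push_cast at h3
    exact h3
  have hne : Real.log c ≤ (n + 1) * e := by
    have h4 : Real.log b * (Real.log c / e) ≤ Real.log b * (n + 1) := by
      calc _ ≤ Real.log N := hN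
        _ ≤ _ := by linarith
    have h5 : Real.log c / e ≤ n + 1 := le_of_mul_le_mul_left h4 hlb
    rwa [div_le_iff₀ he0] at h5
  have hfin : (N : ℝ) ^ (1 - θ) ≤ (c : ℝ) ^ n := by
    have hcpos : (0 : ℝ) < c := by exact_mod_cast hc
    rw [← Real.log_le_log_iff (Real.rpow_pos_of_pos hNpos _) (pow_pos hcpos _),
      Real.log_rpow hNpos, Real.log_pow]
    have h6 : (1 - θ) * Real.log N ≤ (1 - θ) * ((n + 1) * Real.log b) :=
      mul_le_mul_of_nonneg_left hlog (by linarith)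
    have h7 : (1 - θ) * ((n + 1) * Real.log b) = (n + 1) * (Real.log c - e) := by
      rw [he]; ring
    nlinarith
  apply Nat.floor_le_of_le
  exact_mod_cast hfin

/-- The digit criterion. -/
theorem criterion {b : ℕ} (hb : 2 ≤ b) {D : Finset ℕ} (hDc : 1 ≤ D.card)
    (hD : ∀ d ∈ D, 2 * d + 1 ≤ b) {L : ℕ}
    (hL : 2 ≤ L) (hN : NoAP b D L) {θ : ℝ} (h0 : θ < 1)
    (hθ : 1 - Real.log D.card / Real.log b < θ) :
    ∀ᶠ N : ℕ in atTop, minlp θ N ≤ L - 1 := by
  filter_upwards [size_ok hb hDc h0 hθ] with N hN1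
  obtain ⟨h1, h2⟩ := hN1
  obtain ⟨A, hA1, hA2, hA3⟩ := exists_set hb hD hL hN (Nat.log b N) _ N h2
    (Nat.pow_log_le_self b (by omega))
  have h3 : minlp θ N ≤ lp (A + A) := by
    unfold minlp
    apply Nat.sInf_le
    exact ⟨A, hA1, hA2, rfl⟩
  exact h3.trans hA3

theorem limsup_le_of {θ : ℝ} {m : ℕ} (h : ∀ᶠ N : ℕ in atTop, minlp θ N ≤ m) : l θ ≤ m := by
  apply limsup_le_of_le
  · isBoundedDefault
  · filter_upwards [h] with N hN
    exact_mod_cast hN

/-- `3` is a lower bound -/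
theorem three_le {θ : ℝ} (h0 : θ < 1) (h1 : 0 ≤ θ) :
    ∀ᶠ N : ℕ in atTop, 3 ≤ minlp θ N := by
  have ht : Tendsto (fun N : ℕ => (N : ℝ) ^ (1 - θ)) atTop atTop :=
    (tendsto_rpow_atTop (by linarith)).comp tendsto_natCast_atTop_atTop
  filter_upwards [ht.eventually_ge_atTop 2, eventually_ge_atTop 1] with N hN hN1
  have hN1' : (1 : ℝ) ≤ N := by exact_mod_cast hN1
  have hfl : 2 ≤ ⌊(N : ℝ) ^ (1 - θ)⌋₊ := Nat.le_floor (by exact_mod_cast hN)
  have hle : ⌊(N : ℝ) ^ (1 - θ)⌋₊ ≤ N := by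
    apply Nat.floor_le_of_le
    calc (N : ℝ) ^ (1 - θ) ≤ (N : ℝ) ^ (1 : ℝ) :=
          Real.rpow_le_rpow_of_exponent_le hN1' (by linarith)
      _ = N := Real.rpow_one _
  have hne : {m : ℕ | ∃ A : Finset ℤ, (∀ x ∈ A, 1 ≤ x ∧ x ≤ (N : ℤ)) ∧
      A.card = ⌊(N : ℝ) ^ (1 - θ)⌋₊ ∧ m = lp (A + A)}.Nonempty := by
    have hc : ⌊(N : ℝ) ^ (1 - θ)⌋₊ ≤ (Finset.Icc (1 : ℤ) N).card := by
      rw [Int.card_Icc]
      simpa using hle
    obtain ⟨B, hB, hBc⟩ := Finset.exists_subset_card_eq hc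
    exact ⟨_, B, fun x hx => Finset.mem_Icc.1 (hB hx), hBc, rfl⟩
  apply le_csInf hne
  rintro m ⟨A, -, hA2, rfl⟩
  exact three_le_lp (by rw [hA2]; exact hfl)

/-- the digits `0, …, (p - 3) / 2` in a prime base -/
theorem noAP_prime {p : ℕ} (hp : p.Prime) (h5 : 5 ≤ p) :
    NoAP p (Finset.range ((p - 1) / 2)) (p - 1) := by
  have : Fact p.Prime := ⟨hp⟩
  intro s δ hδ
  have hδ0 : (δ : ZMod p) ≠ 0 := by
    intro h
    exact hδ ((ZMod.intCast_zmod_eq_zero_iff_dvd δ p).1 h)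
  have key : ∀ r : ℤ, ∃ i : ℕ, i < p ∧ (s : ZMod p) + i * δ = r := by
    intro r
    refine ⟨(((r : ZMod p) - s) / δ).val, ZMod.val_lt _, ?_⟩
    rw [ZMod.natCast_zmod_val, div_mul_cancel₀ _ hδ0]
    ring
  obtain ⟨i, hi, h1⟩ := key (-1)
  obtain ⟨j, hj, h2⟩ := key (-2)
  have hij : i ≠ j := by
    rintro rfl
    rw [h1] at h2
    have h3 : ((1 : ℤ) : ZMod p) = 0 := by
      have h4 : ((-1 : ℤ) : ZMod p) - ((-2 : ℤ) : ZMod p) = 0 := by rw [h2]; ring
      rw [← h4]
      push_cast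
      ring
    rw [Int.cast_one] at h3
    exact one_ne_zero h3
  have fin : ∀ (k : ℕ) (r : ℤ), (r = -1 ∨ r = -2) → (s : ZMod p) + k * δ = r →
      ∀ x ∈ Finset.range ((p - 1) / 2), ∀ y ∈ Finset.range ((p - 1) / 2),
        ¬ (p : ℤ) ∣ (s + k * δ - ((x : ℤ) + (y : ℤ))) := by
    intro k r hr hk x hx y hy hdvd
    rw [Finset.mem_range] at hx hy
    rw [← ZMod.intCast_zmod_eq_zero_iff_dvd] at hdvd
    push_cast at hdvd
    rw [hk] at hdvd
    have h3 : (((r - ((x : ℤ) + y)) : ℤ) : ZMod p) = 0 := by push_cast; exact hdvd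
    rw [ZMod.intCast_zmod_eq_zero_iff_dvd] at h3
    obtain ⟨c, hc⟩ := h3
    have hx2 : x + y + 3 ≤ p := by omega
    have hx3 : (x : ℤ) + y + 3 ≤ p := by exact_mod_cast hx2
    have hx4 : (0 : ℤ) ≤ (x : ℤ) + y := by positivity
    have hlo : -(p : ℤ) < p * c := by rw [← hc]; rcases hr with rfl | rfl <;> linarith
    have hhi : (p : ℤ) * c < 0 := by rw [← hc]; rcases hr with rfl | rfl <;> linarith
    have hp0 : (0 : ℤ) < p := by exact_mod_cast hp.pos
    have c1 : c < 0 := by nlinarith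
    have c2 : -1 < c := by nlinarith
    omega
  rcases lt_or_ge i (p - 1) with h | h
  · exact ⟨i, h, fin i (-1) (Or.inl rfl) h1⟩
  · exact ⟨j, by omega, fin j (-2) (Or.inr rfl) h2⟩

/-- a computable check of `NoAP` -/
def chk (b L S : ℕ) : Bool :=
  (List.range b).all fun s => (List.range b).all fun δ =>
    δ == 0 || (List.range L).any fun i => !(Nat.testBit S ((s + i * δ) % b))

theorem noAP_of_chk {b L : ℕ} (hb : 0 < b) {D : Finset ℕ} {S : ℕ}
    (hS : ∀ x ∈ D, ∀ y ∈ D, Nat.testBit S ((x + y) % b) = true) (h : chk b L S = true) :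
    NoAP b D L := by
  intro s δ hδ
  have hb0 : (0 : ℤ) < b := by exact_mod_cast hb
  obtain ⟨s', hs'⟩ : ∃ s' : ℕ, (s' : ℤ) = s % b :=
    ⟨(s % b).toNat, Int.toNat_of_nonneg (Int.emod_nonneg _ hb0.ne')⟩
  obtain ⟨δ', hδ'⟩ : ∃ δ' : ℕ, (δ' : ℤ) = δ % b :=
    ⟨(δ % b).toNat, Int.toNat_of_nonneg (Int.emod_nonneg _ hb0.ne')⟩
  have hs1 : s' < b := by
    have := Int.emod_lt_of_pos s hb0
    rw [← hs'] at this
    exact_mod_cast this
  have hd1 : δ' < b := by
    have := Int.emod_lt_of_pos δ hb0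
    rw [← hδ'] at this
    exact_mod_cast this
  have hd2 : δ' ≠ 0 := by
    rintro rfl
    exact hδ (Int.dvd_of_emod_eq_zero (by rw [← hδ']; rfl))
  simp only [chk, List.all_eq_true, List.mem_range, Bool.or_eq_true, beq_iff_eq,
    List.any_eq_true, Bool.not_eq_true'] at h
  obtain ⟨i, hi, hne⟩ := (h s' hs1 δ' hd1).resolve_left hd2
  refine ⟨i, hi, ?_⟩
  intro x hx y hy hdvd
  have e1 : ((s' + i * δ' : ℕ) : ℤ) % b = ((x + y : ℕ) : ℤ) % b := by
    have e2 : ((s' + i * δ' : ℕ) : ℤ) ≡ s + i * δ [ZMOD b] := by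
      push_cast
      apply Int.ModEq.add
      · rw [hs']; exact Int.mod_modEq s b
      · apply Int.ModEq.mul_left
        rw [hδ']; exact Int.mod_modEq δ b
    have e3 : s + i * δ ≡ ((x + y : ℕ) : ℤ) [ZMOD b] := by
      push_cast
      exact Int.modEq_iff_dvd.2 ((dvd_sub_comm).1 hdvd)
    exact e2.trans e3
  have e4 : (s' + i * δ') % b = (x + y) % b := by exact_mod_cast e1
  rw [e4, hS x hx y hy] at hne
  exact Bool.noConfusion hne

theorem noAP_143 : NoAP 143 {0, 8, 10, 21, 23, 33, 41, 44, 52, 54} 5 := by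
  apply noAP_of_chk (S := 426376768057183475420449016710401) (by norm_num)
  · decide +kernel
  · decide +kernel

theorem noAP_49 : NoAP 49 {0, 3, 6, 8, 9, 11, 14, 16, 19, 24} 8 := by
  apply noAP_of_chk (S := 291694245305161) (by norm_num)
  · decide +kernel
  · decide +kernel

/-- **Longest progressions in sumsets of sparse sets.**
(1) for `1 - log 2 / log 5 < θ < 1` (about `0.5693`) the minimum is `3` for all large `N`, and
`l(θ) = 3`. (2) For every prime `p ≥ 5`: `l(θ) ≤ p - 2` for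
`1 - log ((p - 1) / 2) / log p < θ < 1`. (3) `l(θ) ≤ 4` for `1 - log 10 / log 143 < θ < 1` (about
`0.5360`). (4) `l(θ) ≤ 7` for `1 - log 10 / log 49 < θ < 1` (about `0.4084`). (5) The general
digit criterion. -/
theorem result :
    (∀ θ : ℝ, 1 - Real.log 2 / Real.log 5 < θ → θ < 1 →
      (∀ᶠ N : ℕ in atTop, minlp θ N = 3) ∧ l θ = 3) ∧
    (∀ p : ℕ, p.Prime → 5 ≤ p → ∀ θ : ℝ,
      1 - Real.log (((p - 1) / 2 : ℕ) : ℝ) / Real.log p < θ → θ < 1 → l θ ≤ ((p - 2 : ℕ) : ℕ∞)) ∧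
    (∀ θ : ℝ, 1 - Real.log 10 / Real.log 143 < θ → θ < 1 → l θ ≤ 4) ∧
    (∀ θ : ℝ, 1 - Real.log 10 / Real.log 49 < θ → θ < 1 → l θ ≤ 7) ∧
    (∀ (b : ℕ) (D : Finset ℕ) (L : ℕ), 2 ≤ b → D.Nonempty → (∀ d ∈ D, 2 * d + 1 ≤ b) → 2 ≤ L →
      NoAP b D L → ∀ θ : ℝ, 1 - Real.log D.card / Real.log b < θ → θ < 1 →
      l θ ≤ ((L - 1 : ℕ) : ℕ∞)) := by
  have gen : ∀ (b : ℕ) (D : Finset ℕ) (L : ℕ), 2 ≤ b → D.Nonempty → (∀ d ∈ D, 2 * d + 1 ≤ b) →
      2 ≤ L → NoAP b D L → ∀ θ : ℝ, 1 - Real.log D.card / Real.log b < θ → θ < 1 →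
      l θ ≤ ((L - 1 : ℕ) : ℕ∞) := by
    intro b D L hb hne hD hL hN θ h1 h2
    exact limsup_le_of (criterion hb (Finset.card_pos.2 hne) hD hL hN h2 h1)
  refine ⟨?_, ?_, ?_, ?_, gen⟩
  · intro θ h1 h2
    have hN : NoAP 5 (Finset.range 2) 4 := noAP_prime (p := 5) (by norm_num) le_rfl
    have hup := criterion (b := 5) (by norm_num) (D := Finset.range 2) (by simp)
      (by intro d hd; rw [Finset.mem_range] at hd; omega) (by norm_num) hN h2 (by simpa using h1)
    have hθ : 0 ≤ θ := by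
      have : Real.log 2 / Real.log 5 ≤ 1 := by
        rw [div_le_one (Real.log_pos (by norm_num))]
        exact Real.log_le_log (by norm_num) (by norm_num)
      linarith
    have hev : ∀ᶠ N : ℕ in atTop, minlp θ N = 3 := by
      filter_upwards [hup, three_le h2 hθ] with N a b
      omega
    refine ⟨hev, ?_⟩
    unfold l
    have : (fun N : ℕ => (minlp θ N : ℕ∞)) =ᶠ[atTop] fun _ => (3 : ℕ∞) := by
      filter_upwards [hev] with N hN
      rw [hN]
      rfl
    rw [limsup_congr this, limsup_const]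
  · intro p hp h5 θ h1 h2
    have := gen p (Finset.range ((p - 1) / 2)) (p - 1) (by omega)
      ⟨0, by rw [Finset.mem_range]; omega⟩
      (by intro d hd; rw [Finset.mem_range] at hd; omega) (by omega) (noAP_prime hp h5) θ
      (by simpa using h1) h2
    have e : p - 1 - 1 = p - 2 := by omega
    rwa [e] at this
  · intro θ h1 h2
    have hc : (({0, 8, 10, 21, 23, 33, 41, 44, 52, 54} : Finset ℕ)).card = 10 := by decide
    have := gen 143 {0, 8, 10, 21, 23, 33, 41, 44, 52, 54} 5 (by norm_num) ⟨0, by simp⟩ (by decide)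
      (by norm_num) noAP_143 θ (by rw [hc]; exact_mod_cast h1) h2
    simpa using this
  · intro θ h1 h2
    have hc : (({0, 3, 6, 8, 9, 11, 14, 16, 19, 24} : Finset ℕ)).card = 10 := by decide
    have := gen 49 {0, 3, 6, 8, 9, 11, 14, 16, 19, 24} 8 (by norm_num) ⟨0, by simp⟩ (by decide)
      (by norm_num) noAP_49 θ (by rw [hc]; exact_mod_cast h1) h2
    simpa using this

end Pool.Agent.Results.MP_56a425_co.ShortProgressions
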